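import Pool.Agent.W_eb6199.ShortEq

/-!
# Weak type (1,1) of the full parabolic Riesz transform

For every `n ≥ 1` and every real measurable bounded uniformly elliptic coefficient matrix `A(x,t)`
the parabolic operator `H = ∂_t - div_x (A ∇_x)` is m-accretive, the parabolic Riesz transform
`𝔻 H^{-1/2} = (D_t^{1/2} H^{-1/2}, ∇_x H^{-1/2})` is a well defined bounded operator on `L²`, and
it is of weak type `(1,1)`.  All objects are defined in `Pool.Agent.W_eb6199.ShortDefs`.
-/

open MeasureTheory

namespace Pool.Agent.Results.MP_eb6199_an.WeakType11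

open Pool.Agent.W_eb6199.Short

theorem result (n : ℕ) (hn : 1 ≤ n) (a : Fin n → Fin n → ST n → ℝ) (ha : IsCoeff a) :
    IsMAccretive a ∧ (∀ u f, IsH a u f → ∃ g, IsSqrtH a u g) ∧
      (∃! R : Fin (n + 1) → Op n, IsRiesz a R) ∧
      ∀ R : Fin (n + 1) → Op n, IsRiesz a R → WeakType11 R :=
  main_theorem n hn a ha

end Pool.Agent.Results.MP_eb6199_an.WeakType11
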